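import Mathlib

namespace Pool.Agent.Results.MP_dd3545_lc.CH

open Set MeasureTheory ProbabilityTheory Filter Topology Cardinal
open scoped ENNReal

def cyl (w : List Bool) : Set (ℕ → Bool) := {x | ∀ i (h : i < w.length), x i = w[i]}

/-- branching points of the tree of `P` -/
def Split (P : Set (ℕ → Bool)) : Set (List Bool) := {w | ∀ b, (P ∩ cyl (w ++ [b])).Nonempty}

/-- `h` is induced by an order isomorphism of the full binary tree with the branching points -/
def Canon (P : Set (ℕ → Bool)) (h : (ℕ → Bool) → ℕ → Bool) : Prop :=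
  ∃ φ : List Bool → List Bool, range φ = Split P ∧ (∀ s t, φ s <+: φ t ↔ s <+: t) ∧
    ∀ w, MapsTo h (cyl w) (cyl (φ w))

noncomputable def m : Measure (ℕ → Bool) := Measure.infinitePi fun _ => uniformOn univ

def PN (A : Set (ℕ → Bool)) : Prop :=
  ∀ P, Perfect P → P.Nonempty → ∀ h, Canon P h → m (h ⁻¹' (A ∩ P)) = 0

def UN (A : Set (ℕ → Bool)) : Prop :=
  ∀ μ : Measure (ℕ → Bool), IsFiniteMeasure μ → (∀ x, μ {x} = 0) → μ A = 0

def res (x : ℕ → Bool) (n : ℕ) : List Bool := List.ofFn fun i : Fin n => x i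

theorem mem_cyl {x w} : x ∈ cyl w ↔ res x w.length = w :=
  ⟨fun h => List.ext_getElem (by simp [res]) fun i _ h' => by simpa [res] using h i h',
    fun h i h' => by simp [res, ← List.getElem_of_eq h (by simpa [res] using h')]⟩

theorem res_mem (x n) : x ∈ cyl (res x n) := fun i h => by simp [res]

theorem cyl_anti {s t} (h : s <+: t) : cyl t ⊆ cyl s := fun x hx i hi => by
  rw [hx i (hi.trans_le h.length_le), h.getElem]

theorem comp {x s t} (h : x ∈ cyl s) (h' : x ∈ cyl t) (l : s.length ≤ t.length) : s <+: t :=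
  List.prefix_iff_getElem.2 ⟨l, fun i hi => (h i hi).symm.trans (h' i _)⟩

theorem cyl_eq (w) : cyl w = pi (Finset.range w.length) fun i => {w.getD i false} := by
  ext x
  exact ⟨fun h i hi => by simp at hi; simp [h i hi, hi], fun h i hi => by simpa [hi] using h i (by simpa)⟩

theorem meas (w) : MeasurableSet (cyl w) :=
  cyl_eq w ▸ .pi (Finset.countable_toSet _) fun _ _ => measurableSet_singleton _

theorem pi_cyl (ν : Measure Bool) [IsProbabilityMeasure ν] (w : List Bool) :
    Measure.infinitePi (fun _ : ℕ => ν) (cyl w) = (w.map fun b => ν {b}).prod := by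
  rw [cyl_eq, Measure.infinitePi_pi _ fun _ _ => measurableSet_singleton _,
    ← Fin.prod_univ_eq_prod_range (fun i => ν {w.getD i false}), ← Fin.prod_univ_fun_getElem]
  simp

theorem m_cyl (w) : m (cyl w) = 2⁻¹ ^ w.length := by
  simp only [m, pi_cyl, uniformOn_univ]
  simp [List.map_const']

noncomputable def ν : Measure Bool := (1 / 50 : ℝ≥0∞) • .dirac true + (49 / 50 : ℝ≥0∞) • .dirac false

instance : IsProbabilityMeasure ν := ⟨by
  simp only [ν, Measure.add_apply, Measure.smul_apply, measure_univ, smul_eq_mul, mul_one,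
    ENNReal.div_add_div_same]
  norm_num [ENNReal.div_self]⟩

noncomputable def μ : Measure (ℕ → Bool) := Measure.infinitePi fun _ => ν

instance : IsProbabilityMeasure μ := by unfold μ; infer_instance
instance : IsProbabilityMeasure m := by unfold m; infer_instance

theorem μ_cyl (w b) : μ.real (cyl (w ++ [b])) = μ.real (cyl w) * if b then 1 / 50 else 49 / 50 := by
  simp only [μ, pi_cyl, Measure.real]
  cases b <;> simp [ν]

theorem atom {κ : Measure (ℕ → Bool)} [IsFiniteMeasure κ] {r : ℝ} (h0 : 0 ≤ r) (h1 : r < 1)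
    (h : ∀ w b, κ.real (cyl (w ++ [b])) ≤ κ.real (cyl w) * r) (x) : κ {x} = 0 := by
  have : ∀ n, κ.real (cyl (res x n)) ≤ κ.real univ * r ^ n := fun n => by
    induction n with
    | zero => simpa using measureReal_mono (subset_univ _)
    | succ n ih =>
      rw [res, List.ofFn_succ', List.concat_eq_append, pow_succ, ← mul_assoc]
      exact (h _ _).trans (mul_le_mul_of_nonneg_right ih h0)
  have l := (tendsto_pow_atTop_nhds_zero_of_lt_one h0 h1).const_mul (κ.real univ)
  rw [mul_zero] at l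
  exact (measureReal_eq_zero_iff).1 (le_antisymm (ge_of_tendsto' l fun n =>
      (measureReal_mono (singleton_subset_iff.2 (res_mem x n))).trans (this n)) measureReal_nonneg)

theorem child {P} {φ : List Bool → List Bool} (hP : Perfect P) (h1 : range φ = Split P) (h2 : ∀ s t, φ s <+: φ t ↔ s <+: t)
    (t b) : ∃ c, φ t ++ [b] <+: φ (t ++ [c]) := by
  obtain ⟨x, k1, k2⟩ := (h1.le (mem_range_self t)) b
  obtain ⟨y, ⟨k3, k4⟩, k5⟩ := accPt_iff_nhds.1 (hP.acc x k1) (cyl (φ t ++ [b])) (cyl_eq _ ▸
    set_pi_mem_nhds (Finset.finite_toSet _) fun i hi =>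
      (isOpen_discrete _).mem_nhds ((cyl_eq _ ▸ k2) i hi))
  have k6 := Function.ne_iff.1 k5
  have k7 := Nat.find_spec k6
  have k8 : ∀ i < Nat.find k6, y i = x i := fun i hi => not_not.1 (Nat.find_min k6 hi)
  generalize Nat.find k6 = n at k7 k8
  have k9 : (φ t ++ [b]).length ≤ n := not_lt.1 fun h => k7 ((k3 _ h).trans (k2 _ h).symm)
  have l1 : ∀ z : ℕ → Bool, (∀ i < n, z i = x i) →
      z ∈ cyl (res x n ++ [z n]) := fun z h i hi => by
    simp [res] at hi
    rcases hi.lt_or_eq with l | rfl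
    · simp [res, l, h i l]
    · simp [res]
  obtain ⟨u, l2⟩ := h1.ge (show res x n ∈ Split P from fun c => by
    by_cases l : x n = c
    · exact ⟨x, k1, l ▸ l1 x fun _ _ => rfl⟩
    · exact ⟨y, k4, (show y n = c by
        cases c <;> simp_all) ▸ l1 y k8⟩)
  have l3 : φ t ++ [b] <+: φ u := l2 ▸ comp k2 (res_mem _ _) (by simpa [res] using k9)
  obtain ⟨_ | ⟨c, v⟩, rfl⟩ := (h2 _ _).1 ((List.prefix_append _ _).trans l3)
  · simpa using l3.length_le
  refine ⟨c, List.prefix_of_prefix_length_le l3 ((h2 _ _).2 (by simp)) (not_lt.1 fun l => ?_)⟩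
  have l4 := (h2 t (t ++ [c])).2 (List.prefix_append _ _)
  simpa using ((h2 (t ++ [c]) t).1 (l4.eq_of_length_le (by simpa [Nat.lt_succ_iff] using l) ▸
    List.prefix_rfl)).length_le

theorem sing {P h} (hP : Perfect P) (hh : Canon P h) : (∀ x, (h ⁻¹' {x}).Subsingleton) ∧
    ∃ B, MeasurableSet B ∧ μ B = 0 ∧ m (h ⁻¹' Bᶜ) = 0 := by
  obtain ⟨φ, h1, h2, h3⟩ := hh
  have h4 : ∀ {x s t}, x ∈ cyl (φ s) → x ∈ cyl (φ t) → s.length = t.length → s = t :=
    fun k1 k2 k3 => (le_total _ _).elim (fun l => ((h2 _ _).1 (comp k1 k2 l)).eq_of_length k3)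
      fun l => (((h2 _ _).1 (comp k2 k1 l)).eq_of_length k3.symm).symm
  refine ⟨fun x y k z k' => funext fun n => by
    have := h4 (h3 _ (res_mem y (n + 1))) (k'.trans k.symm ▸ h3 _ (res_mem z (n + 1))) (by simp [res])
    exact congrFun (List.ofFn_injective this) (Fin.last n), ?_⟩
  let c : List Bool → ℝ := fun t => √(2⁻¹ ^ t.length * μ.real (cyl (φ t)))
  have h5 : ∀ t, c (t ++ [false]) + c (t ++ [true]) ≤ c t * (4 / 5) := fun t => by
    have k1 : ∀ b d, φ t ++ [b] <+: φ (t ++ [d]) →
        c (t ++ [d]) ≤ c t * if b then 1 / 10 else 7 / 10 := fun b d k => by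
      have := (measureReal_mono (cyl_anti k)).trans_eq (μ_cyl _ _)
      refine Real.sqrt_le_iff.2 ⟨by positivity, ?_⟩
      rw [mul_pow, Real.sq_sqrt (by positivity), List.length_append, pow_add]
      have := mul_le_mul_of_nonneg_left this (show (0 : ℝ) ≤ 2⁻¹ ^ t.length by positivity)
      cases b <;> simp only [List.length_singleton, Bool.false_eq_true, if_true, if_false] at this ⊢ <;>
        linarith
    obtain ⟨d, k2⟩ := child hP h1 h2 t false
    obtain ⟨e, k3⟩ := child hP h1 h2 t true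
    have k4 := k1 _ _ k2
    have k5 := k1 _ _ k3
    have : d ≠ e := fun l => by
      cases List.append_cancel_left
        ((List.prefix_of_prefix_length_le k2 (l ▸ k3) (by simp)).eq_of_length (by simp))
    cases d <;> cases e <;> simp at * <;> linarith
  have h6 : ∀ n, ∑ t : Fin n → Bool, c (List.ofFn t) ≤ (4 / 5) ^ n := fun n => by
    induction n with
    | zero => simp [c]
    | succ n ih =>
      rw [← (Fin.snocEquiv fun _ => Bool).sum_comp, Fintype.sum_prod_type_right, pow_succ]
      refine le_trans (Finset.sum_le_sum fun t _ => ?_) ((Finset.sum_mul ..).symm.trans_le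
        (mul_le_mul_of_nonneg_right ih (by norm_num)))
      simpa [List.ofFn_succ', add_comm, -List.ofFn_succ] using h5 (List.ofFn t)
  have h7 : ∀ (κ : Measure (ℕ → Bool)) [IsFiniteMeasure κ] (p : List Bool → Prop)
      (s : List Bool → Set (ℕ → Bool)), (∀ t, p t → κ.real (s t) ≤ c t) → κ (limsup (fun n =>
        ⋃ t ∈ {t : Fin n → Bool | p (List.ofFn t)}, s (List.ofFn t)) atTop) = 0 := fun κ _ p s k => by
    classical
    refine measure_limsup_atTop_eq_zero (ne_top_of_le_ne_top (Summable.tsum_ofReal_ne_top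
      (summable_geometric_of_lt_one (r := 4 / 5) (by norm_num) (by norm_num)))
        (ENNReal.tsum_le_tsum fun n => (ofReal_measureReal (measure_ne_top _ _)).symm.trans_le
          (ENNReal.ofReal_le_ofReal (le_trans ?_ (h6 n)))))
    rw [← Finset.coe_filter_univ]
    exact (measureReal_biUnion_finset_le _ _).trans ((Finset.sum_le_sum fun t l => k _
      (Finset.mem_filter.1 l).2).trans (Finset.sum_le_sum_of_subset_of_nonneg (Finset.subset_univ _)
        fun _ _ _ => Real.sqrt_nonneg _))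
  refine ⟨_, .measurableSet_limsup fun n => .biUnion (to_countable _) fun t _ => meas _, h7 μ
    (fun t => μ.real (cyl (φ t)) ≤ 2⁻¹ ^ t.length) (fun t => cyl (φ t)) fun t k =>
      Real.le_sqrt_of_sq_le (by rw [sq]; exact mul_le_mul_of_nonneg_right k measureReal_nonneg),
    measure_mono_null (fun y k => ?_) (h7 m (fun t => 2⁻¹ ^ t.length ≤ μ.real (cyl (φ t))) cyl
      fun t k => ?_)⟩
  · simp only [mem_preimage, mem_compl_iff, mem_limsup_iff_frequently_mem, not_frequently] at k ⊢
    refine fun k' => (k.and k').exists.elim fun n ⟨k, k'⟩ =>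
      k' (mem_iUnion₂.2 ⟨fun i => y i, ?_, res_mem y n⟩)
    exact le_of_not_ge (b := (2⁻¹ : ℝ) ^ _) fun l =>
      k (mem_iUnion₂.2 ⟨fun i => y i, l, h3 _ (res_mem y n)⟩)
  · rw [Measure.real, m_cyl]
    simpa [c] using Real.le_sqrt_of_sq_le ((sq _).trans_le (mul_le_mul_of_nonneg_left k
      (show (0 : ℝ) ≤ 2⁻¹ ^ t.length by positivity)))

theorem result (h : (𝔠 : Cardinal.{0}) = ℵ₁) : ∃ A, PN A ∧ ¬ UN A := by
  let N := {B : Set (ℕ → Bool) | MeasurableSet B ∧ μ B = 0}
  let W : Type := (#N).ord.ToType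
  obtain ⟨e⟩ : Nonempty (W ≃ N) := Cardinal.eq.1 (mk_ord_toType _)
  have h1 : ∀ ξ : W, (Iio ξ).Countable := fun ξ => by
    have := MeasurableSpace.cardinal_measurableSet_le_continuum
      ((MeasurableSpace.countable_countableGeneratingSet (α := ℕ → Bool)).le_aleph0.trans
        aleph0_le_continuum)
    rw [MeasurableSpace.generateFrom_countableGeneratingSet, h] at this
    exact (countable_iff_lt_aleph_one _).2 ((mk_Iio_toType_ord_lt ξ).trans_le
      ((mk_le_mk_of_subset fun _ k => k.1).trans this))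
  have h2 : ∀ ξ : W, ∃ x, x ∉ ⋃ η ∈ insert ξ (Iio ξ), (e η).1 := fun ξ =>
    (ne_univ_iff_exists_notMem _).1 fun k => NeZero.ne (μ univ) (k ▸
      (measure_biUnion_null_iff ((h1 ξ).insert ξ)).2 fun η _ => (e η).2.2)
  choose x h2 using h2
  refine ⟨range x, fun P k1 _ f k2 => ?_, fun k => ?_⟩
  · obtain ⟨k3, B, k4, k5, k6⟩ := sing k1 k2
    have : NullSingletonClass m := ⟨atom (r := 2⁻¹) (by norm_num) (by norm_num) fun w b => by
      simp [Measure.real, m_cyl, pow_succ]⟩
    refine measure_mono_null (fun y l => or_iff_not_imp_left.2 fun l' => ?_) (measure_union_null k6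
      ((measure_biUnion_null_iff (h1 (e.symm ⟨B, k4, k5⟩))).2 fun η _ => (k3 (x η)).measure_zero m))
    obtain ⟨ξ, l1⟩ := l.1
    refine mem_biUnion (not_le.1 fun l2 => h2 ξ (mem_biUnion l2.eq_or_lt ?_)) l1.symm
    simpa [l1] using l'
  · obtain ⟨B, k1, k2⟩ := exists_measurable_superset_of_null (k μ inferInstance (atom (r := 49 / 50)
      (by norm_num) (by norm_num) fun w b => (μ_cyl w b).trans_le
        (mul_le_mul_of_nonneg_left (by cases b <;> norm_num) measureReal_nonneg)))
    exact h2 (e.symm ⟨B, k2⟩) (mem_biUnion (mem_insert _ _) (by simpa using k1 (mem_range_self _)))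

end Pool.Agent.Results.MP_dd3545_lc.CH
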